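import Pool.Agent.X33.MeshB

set_option autoImplicit false

namespace Pool.Agent.Results.MP_d1f6bb_co.SmallerVolume

open Pool.Agent.X33.Mesh

/-- `V X` is the least total communication volume of a perfectly balanced 4-way partition of the
five-point mesh `M_X`. The conjectured values `V(64) = 222`, `V(256) = 878`, `V(1024) = 3500` and
`V(2048) = 6996` are all too large by at least one. -/
theorem result :
    (∀ X ∈ ({16, 64, 256, 1024, 2048} : Finset ℕ),
      IsLeast {m | ∃ c : ℕ × ℕ → Fin 4, Balanced X c ∧ cost X c = m} (V X)) ∧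
    V 64 ≤ 221 ∧ V 256 ≤ 877 ∧ V 1024 ≤ 3499 ∧ V 2048 ≤ 6995 := by
  refine ⟨?_, V64.2, V256.2, V1024.2, V2048.2⟩
  intro X hX
  simp only [Finset.mem_insert, Finset.mem_singleton] at hX
  rcases hX with rfl | rfl | rfl | rfl | rfl
  · exact V16.1
  · exact V64.1
  · exact V256.1
  · exact V1024.1
  · exact V2048.1

end Pool.Agent.Results.MP_d1f6bb_co.SmallerVolume
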